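import Mathlib

set_option autoImplicit false

open Finset

namespace Pool.Agent.H273R2.Bent

/-- homogeneous functions of degree `k` in the variables of `A` -/
def Hm {ι : Type} [DecidableEq ι] (A : Finset ι) (k : ℕ) (f : (ι → ZMod 2) → ZMod 2) : Prop :=
  f ∈ Submodule.span (ZMod 2) (Set.range
    (fun s : {s : Finset ι // s ⊆ A ∧ s.card = k} => fun x : ι → ZMod 2 => ∏ i ∈ s.1, x i))

section
variable {ι : Type} [DecidableEq ι]

theorem Hm.add {A : Finset ι} {k : ℕ} {f g : (ι → ZMod 2) → ZMod 2} (hf : Hm A k f)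
    (hg : Hm A k g) : Hm A k (fun x => f x + g x) := Submodule.add_mem _ hf hg

theorem Hm.sum {A : Finset ι} {k : ℕ} {κ : Type*} (T : Finset κ)
    {f : κ → (ι → ZMod 2) → ZMod 2} (hf : ∀ t ∈ T, Hm A k (f t)) :
    Hm A k (fun x => ∑ t ∈ T, f t x) := by
  have : (fun x => ∑ t ∈ T, f t x) = ∑ t ∈ T, f t := by
    ext x
    simp
  rw [this]
  exact Submodule.sum_mem _ hf

theorem Hm.mono {A B : Finset ι} {k : ℕ} {f : (ι → ZMod 2) → ZMod 2} (hf : Hm A k f)
    (h : A ⊆ B) : Hm B k f := by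
  refine Submodule.span_mono ?_ hf
  rintro _ ⟨s, rfl⟩
  exact ⟨⟨s.1, s.2.1.trans h, s.2.2⟩, rfl⟩

theorem Hm.mul {A B : Finset ι} {k l : ℕ} {f g : (ι → ZMod 2) → ZMod 2} (hf : Hm A k f)
    (hg : Hm B l g) (hd : Disjoint A B) : Hm (A ∪ B) (k + l) (fun x => f x * g x) := by
  have key : ∀ s : {s : Finset ι // s ⊆ A ∧ s.card = k}, ∀ g : (ι → ZMod 2) → ZMod 2, Hm B l g →
      Hm (A ∪ B) (k + l) (fun x => (∏ i ∈ s.1, x i) * g x) := by
    intro s g hg
    refine Submodule.span_induction (p := fun g _ => Hm (A ∪ B) (k + l)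
      (fun x => (∏ i ∈ s.1, x i) * g x)) ?_ ?_ ?_ ?_ hg
    · rintro _ ⟨t, rfl⟩
      have hst : Disjoint s.1 t.1 := disjoint_of_subset_left s.2.1 (disjoint_of_subset_right t.2.1 hd)
      have e : (fun x : ι → ZMod 2 => (∏ i ∈ s.1, x i) * ∏ i ∈ t.1, x i) =
          fun x => ∏ i ∈ s.1 ∪ t.1, x i := by
        ext x
        rw [prod_union hst]
      show Hm (A ∪ B) (k + l) (fun x : ι → ZMod 2 => (∏ i ∈ s.1, x i) * ∏ i ∈ t.1, x i)
      rw [e]
      refine Submodule.subset_span ⟨⟨s.1 ∪ t.1, union_subset_union s.2.1 t.2.1, ?_⟩, rfl⟩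
      rw [card_union_of_disjoint hst, s.2.2, t.2.2]
    · have : (fun x : ι → ZMod 2 => (∏ i ∈ s.1, x i) * (0 : (ι → ZMod 2) → ZMod 2) x) = 0 := by
        ext x
        simp
      rw [this]
      exact Submodule.zero_mem _
    · intro g g' _ _ h h'
      have : (fun x : ι → ZMod 2 => (∏ i ∈ s.1, x i) * (g + g') x) =
          fun x => (∏ i ∈ s.1, x i) * g x + (∏ i ∈ s.1, x i) * g' x := by
        ext x
        simp [mul_add]
      rw [this]
      exact h.add h'
    · intro c g _ h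
      have : (fun x : ι → ZMod 2 => (∏ i ∈ s.1, x i) * (c • g) x) =
          c • fun x => (∏ i ∈ s.1, x i) * g x := by
        ext x
        simp [mul_left_comm]
      rw [this]
      exact Submodule.smul_mem _ c h
  refine Submodule.span_induction (p := fun f _ => Hm (A ∪ B) (k + l)
      (fun x => f x * g x)) ?_ ?_ ?_ ?_ hf
  · rintro _ ⟨s, rfl⟩
    exact key s g hg
  · have : (fun x : ι → ZMod 2 => (0 : (ι → ZMod 2) → ZMod 2) x * g x) = 0 := by
      ext x
      simp
    rw [this]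
    exact Submodule.zero_mem _
  · intro f f' _ _ h h'
    have : (fun x : ι → ZMod 2 => (f + f') x * g x) =
        fun x => f x * g x + f' x * g x := by
      ext x
      simp [add_mul]
    rw [this]
    exact h.add h'
  · intro c f _ h
    have : (fun x : ι → ZMod 2 => (c • f) x * g x) =
        c • fun x => f x * g x := by
      ext x
      simp [mul_assoc]
    rw [this]
    exact Submodule.smul_mem _ c h

theorem Hm.var {A : Finset ι} {i : ι} (hi : i ∈ A) : Hm A 1 (fun x => x i) := by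
  refine Submodule.subset_span ⟨⟨{i}, by simpa using hi, card_singleton i⟩, ?_⟩
  ext x
  simp

theorem Hm.exists_finset [Fintype ι] {A : Finset ι} {k : ℕ} {f : (ι → ZMod 2) → ZMod 2}
    (hf : Hm A k f) : ∃ S : Finset (Finset ι), (∀ s ∈ S, s.card = k) ∧
      ∀ x, f x = ∑ s ∈ S, ∏ i ∈ s, x i := by
  classical
  obtain ⟨c, hc⟩ := (Submodule.mem_span_range_iff_exists_fun (ZMod 2)).1 hf
  refine ⟨(univ.filter fun s => c s ≠ 0).map (Function.Embedding.subtype _), ?_, ?_⟩
  · intro s hs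
    simp only [mem_map, mem_filter, mem_univ, true_and] at hs
    obtain ⟨t, -, rfl⟩ := hs
    exact t.2.2
  · intro x
    rw [sum_map, ← hc, Finset.sum_apply, sum_filter]
    refine sum_congr rfl fun s _ => ?_
    have h2 : ∀ a : ZMod 2, a = 0 ∨ a = 1 := by decide
    rcases h2 (c s) with h | h
    · simp [h]
    · simp [h]

end

/-- the gadget: a homogeneous function of degree `2^a` with `φ(v+1) = φ(v) + 1` -/
theorem gadget (a : ℕ) : ∃ (w : ℕ) (φ : (Fin w → ZMod 2) → ZMod 2),
    (∀ v, φ (fun j => v j + 1) = φ v + 1) ∧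
    ∀ (ι : Type) [DecidableEq ι] (l : Fin w → (ι → ZMod 2) → ZMod 2) (A : Fin w → Finset ι),
      (∀ j, Hm (A j) 1 (l j)) → (∀ i j, i ≠ j → Disjoint (A i) (A j)) →
      Hm (univ.biUnion A) (2 ^ a) (fun x => φ (fun j => l j x)) := by
  induction a with
  | zero =>
    refine ⟨1, fun v => v 0, fun v => rfl, ?_⟩
    intro ι _ l A h _
    exact (h 0).mono (subset_biUnion_of_mem A (mem_univ 0))
  | succ a ih =>
    obtain ⟨w, φ, h1, h2⟩ := ih
    let p : Fin 3 → (Fin (3 * w) → ZMod 2) → ZMod 2 := fun c v => φ (fun j => v (finProdFinEquiv (c, j)))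
    refine ⟨3 * w, fun v => p 0 v * p 1 v + p 0 v * p 2 v + p 1 v * p 2 v, ?_, ?_⟩
    · intro v
      have h : ∀ c, p c (fun j => v j + 1) = p c v + 1 := fun c => h1 _
      simp only [h]
      have : ∀ a b c : ZMod 2, (a + 1) * (b + 1) + (a + 1) * (c + 1) + (b + 1) * (c + 1) =
          a * b + a * c + b * c + 1 := by decide
      exact this _ _ _
    · intro ι _ l A hl hA
      let B : Fin 3 → Finset ι := fun c => univ.biUnion fun j => A (finProdFinEquiv (c, j))
      have hB : ∀ c, Hm (B c) (2 ^ a) (fun x => p c (fun j => l j x)) := by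
        intro c
        exact h2 ι (fun j => l (finProdFinEquiv (c, j))) (fun j => A (finProdFinEquiv (c, j)))
          (fun j => hl _) (fun i j hij => hA _ _ fun h => hij (by simpa using h))
      have hBd : ∀ c c', c ≠ c' → Disjoint (B c) (B c') := by
        intro c c' hc
        rw [disjoint_biUnion_left]
        intro i _
        rw [disjoint_biUnion_right]
        intro j _
        exact hA _ _ fun h => hc (by simpa using congrArg Prod.fst (finProdFinEquiv.injective h))
      have hBs : ∀ c, B c ⊆ univ.biUnion A := by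
        intro c
        refine biUnion_subset.2 fun j _ => subset_biUnion_of_mem A (mem_univ _)
      have e : 2 ^ (a + 1) = 2 ^ a + 2 ^ a := by ring
      rw [e]
      have m : ∀ c c', c ≠ c' → Hm (univ.biUnion A) (2 ^ a + 2 ^ a)
          (fun x => p c (fun j => l j x) * p c' (fun j => l j x)) := fun c c' hc =>
        ((hB c).mul (hB c') (hBd c c' hc)).mono (union_subset (hBs c) (hBs c'))
      exact ((m 0 1 (by decide)).add (m 0 2 (by decide))).add (m 1 2 (by decide))

/-- the sign character -/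
def chi (t : ZMod 2) : ℤ := (-1) ^ (ZMod.val t)

theorem chi_add (s t : ZMod 2) : chi (s + t) = chi s * chi t := by
  revert s t; decide

theorem chi_sq (s : ZMod 2) : chi s ^ 2 = 1 := by
  revert s; decide

theorem chi_sum {M : Type} (T : Finset M) (f : M → ZMod 2) :
    chi (∑ i ∈ T, f i) = ∏ i ∈ T, chi (f i) := by
  classical
  induction T using Finset.induction_on with
  | empty => simp [chi]
  | insert a s ha ih => rw [sum_insert ha, prod_insert ha, chi_add, ih]

theorem sum_lin {M : Type} [Fintype M] [DecidableEq M] (c : M → ZMod 2) :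
    ∑ z : M → ZMod 2, chi (∑ i, z i * c i) = if c = 0 then 2 ^ Fintype.card M else 0 := by
  have h1 : ∑ z : M → ZMod 2, chi (∑ i, z i * c i) = ∏ i, ∑ t : ZMod 2, chi (t * c i) := by
    rw [Finset.prod_univ_sum]
    simp only [Fintype.piFinset_univ]
    exact sum_congr rfl fun z _ => chi_sum _ _
  have h2 : ∀ u : ZMod 2, ∑ t : ZMod 2, chi (t * u) = if u = 0 then 2 else 0 := by decide
  rw [h1]
  simp only [h2]
  split_ifs with h
  · subst h
    simp
  · obtain ⟨i, hi⟩ := Function.ne_iff.1 h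
    exact prod_eq_zero (mem_univ i) (if_neg hi)

theorem mm {M : Type} [Fintype M] [DecidableEq M] (h : (M → ZMod 2) → ZMod 2)
    (L : (M → ZMod 2) →ₗ[ZMod 2] (M → ZMod 2)) (α β : M → ZMod 2) :
    (∑ p : (M → ZMod 2) × (M → ZMod 2), chi (h (p.2 + L p.1) + ∑ i, p.1 i * (p.2 + L p.1) i +
      (∑ i, α i * p.1 i + ∑ i, β i * p.2 i))) ^ 2 = 2 ^ (2 * Fintype.card M) := by
  -- the functional `z ↦ β · L z`
  obtain ⟨γ, hγ⟩ : ∃ γ : M → ZMod 2, ∀ z, ∑ i, β i * L z i = ∑ i, z i * γ i := by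
    let ψ : (M → ZMod 2) →ₗ[ZMod 2] ZMod 2 := ∑ i, β i • (LinearMap.proj i).comp L
    refine ⟨fun i => ψ (fun j => if i = j then 1 else 0), fun z => ?_⟩
    have := LinearMap.pi_apply_eq_sum_univ ψ z
    simp only [smul_eq_mul] at this
    rw [← this]
    simp [ψ]
  let E : (M → ZMod 2) × (M → ZMod 2) ≃ (M → ZMod 2) × (M → ZMod 2) :=
    { toFun := fun p => (p.1, p.2 + L p.1)
      invFun := fun p => (p.1, p.2 - L p.1)
      left_inv := fun p => by simp
      right_inv := fun p => by simp }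
  have key : ∀ p : (M → ZMod 2) × (M → ZMod 2), chi (h (p.2 + L p.1) +
      ∑ i, p.1 i * (p.2 + L p.1) i + (∑ i, α i * p.1 i + ∑ i, β i * p.2 i)) =
      (fun q : (M → ZMod 2) × (M → ZMod 2) => chi (h q.2 + ∑ i, β i * q.2 i) *
        chi (∑ i, q.1 i * (q.2 i + (α i + γ i)))) (E p) := by
    intro p
    show _ = chi (h (p.2 + L p.1) + ∑ i, β i * (p.2 + L p.1) i) *
        chi (∑ i, p.1 i * ((p.2 + L p.1) i + (α i + γ i)))
    rw [← chi_add]
    congr 1
    have e1 : ∑ i, β i * (p.2 + L p.1) i = ∑ i, β i * p.2 i + ∑ i, p.1 i * γ i := by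
      rw [← hγ, ← sum_add_distrib]
      exact sum_congr rfl fun i _ => by simp [mul_add]
    have e2 : ∑ i, p.1 i * ((p.2 + L p.1) i + (α i + γ i)) =
        ∑ i, p.1 i * (p.2 + L p.1) i + (∑ i, α i * p.1 i + ∑ i, p.1 i * γ i) := by
      rw [← sum_add_distrib, ← sum_add_distrib]
      exact sum_congr rfl fun i _ => by ring
    rw [e1, e2]
    have h2 : ∀ a : ZMod 2, a + a = 0 := by decide
    have := h2 (∑ i, p.1 i * γ i)
    linear_combination (-1 : ZMod 2) * this
  rw [Fintype.sum_congr _ _ key, E.sum_comp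
    (fun q : (M → ZMod 2) × (M → ZMod 2) => chi (h q.2 + ∑ i, β i * q.2 i) *
        chi (∑ i, q.1 i * (q.2 i + (α i + γ i)))), Fintype.sum_prod_type_right]
  simp only [← mul_sum]
  have h3 : ∀ d : M → ZMod 2, ∑ z : M → ZMod 2, chi (∑ i, z i * (d i + (α i + γ i))) =
      if d = α + γ then 2 ^ Fintype.card M else 0 := by
    intro d
    have := sum_lin (fun i => d i + (α i + γ i))
    rw [this]
    have e : ((fun i => d i + (α i + γ i)) = 0) ↔ d = α + γ := by
      have h4 : ∀ a b : ZMod 2, a + b = 0 ↔ a = b := by decide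
      rw [funext_iff, funext_iff]
      exact forall_congr' fun i => h4 _ _
    simp only [e]
  simp only [h3]
  simp only [mul_ite, mul_zero, sum_ite_eq', mem_univ, if_true]
  rw [mul_pow, chi_sq, one_mul, ← pow_mul, mul_comm]


/-! ### the set system -/

theorem three_pow_sidon {a b c d : ℕ} (h : 3 ^ a + 3 ^ b = 3 ^ c + 3 ^ d) :
    (a = c ∧ b = d) ∨ (a = d ∧ b = c) := by
  have main : ∀ a b c d : ℕ, a ≤ b → c ≤ d → 3 ^ a + 3 ^ b = 3 ^ c + 3 ^ d → a = c ∧ b = d := by
    have aux : ∀ a b c d : ℕ, a ≤ b → c ≤ d → 3 ^ a + 3 ^ b = 3 ^ c + 3 ^ d → ¬ a < c := by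
      intro a b c d hab hcd h hac
      have h1 : 3 ^ (a + 1) ∣ 3 ^ c + 3 ^ d :=
        dvd_add (pow_dvd_pow 3 hac) (pow_dvd_pow 3 (by omega))
      rw [← h] at h1
      obtain ⟨e, rfl⟩ := Nat.exists_eq_add_of_le hab
      have h2 : 3 ^ a * 3 ∣ 3 ^ a * (1 + 3 ^ e) := by
        have : 3 ^ a * (1 + 3 ^ e) = 3 ^ a + 3 ^ (a + e) := by ring
        rw [this, ← pow_succ]
        exact h1
      have h3 : 3 ∣ 1 + 3 ^ e := Nat.dvd_of_mul_dvd_mul_left (by positivity) h2
      rcases Nat.eq_zero_or_pos e with rfl | he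
      · norm_num at h3
      · have h4 : 3 ∣ 3 ^ e := dvd_pow_self 3 (by omega)
        have h5 : 3 ∣ 1 := (Nat.dvd_add_left h4).1 h3
        norm_num at h5
    intro a b c d hab hcd h
    have h1 := aux a b c d hab hcd h
    have h2 := aux c d a b hcd hab h.symm
    have h3 : a = c := by omega
    subst h3
    refine ⟨rfl, Nat.pow_right_injective (le_refl 2 |>.trans (by norm_num)) (show 3 ^ b = 3 ^ d by omega)⟩
  rcases le_total a b with h1 | h1 <;> rcases le_total c d with h2 | h2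
  · exact Or.inl (main a b c d h1 h2 h)
  · exact Or.inr (main a b d c h1 h2 (by omega))
  · have := main b a c d h1 h2 (by omega)
    exact Or.inr ⟨this.2, this.1⟩
  · have := main b a d c h1 h2 (by omega)
    exact Or.inl ⟨this.2, this.1⟩

theorem sidon {m w : ℕ} (hm : 2 * 3 ^ w < m) {a b c d : ℕ} (ha : a ≤ w) (hb : b ≤ w) (hc : c ≤ w)
    (hd : d ≤ w) (h : (3 : ZMod m) ^ a + 3 ^ b = 3 ^ c + 3 ^ d) :
    (a = c ∧ b = d) ∨ (a = d ∧ b = c) := by
  apply three_pow_sidon
  have hle : ∀ u, u ≤ w → 3 ^ u ≤ 3 ^ w := fun u hu => Nat.pow_le_pow_right (by norm_num) hu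
  have h1 : ((3 ^ a + 3 ^ b : ℕ) : ZMod m) = ((3 ^ c + 3 ^ d : ℕ) : ZMod m) := by
    push_cast
    exact h
  rw [ZMod.natCast_eq_natCast_iff'] at h1
  rwa [Nat.mod_eq_of_lt, Nat.mod_eq_of_lt] at h1
  · have := hle c hc; have := hle d hd; omega
  · have := hle a ha; have := hle b hb; omega

section construction

variable (m w : ℕ)

/-- the shifts -/
def del (j : Fin w) : ZMod m := 3 ^ ((j : ℕ) + 1) - 1

/-- the linear forms `d_i` -/
def dd (x : ZMod m ⊕ ZMod m → ZMod 2) (i : ZMod m) : ZMod 2 :=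
  x (Sum.inr i) + ∑ j : Fin w, x (Sum.inl (i - del m w j))

/-- support of `d_i` -/
def A0 (i : ZMod m) : Finset (ZMod m ⊕ ZMod m) :=
  insert (Sum.inr i) (univ.image fun j : Fin w => Sum.inl (i - del m w j))

/-- support of `d_{i+δ_j} + z_i` -/
def A1 (i : ZMod m) (j : Fin w) : Finset (ZMod m ⊕ ZMod m) :=
  insert (Sum.inr (i + del m w j))
    ((univ.erase j).image fun l : Fin w => Sum.inl (i + del m w j - del m w l))

theorem dd_hm (i : ZMod m) : Hm (A0 m w i) 1 (fun x => dd m w x i) := by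
  refine (Hm.var (mem_insert_self _ _)).add (Hm.sum univ fun j _ => Hm.var ?_)
  exact mem_insert_of_mem (mem_image_of_mem _ (mem_univ j))

theorem e_hm (i : ZMod m) (j : Fin w) :
    Hm (A1 m w i j) 1 (fun x => dd m w x (i + del m w j) + x (Sum.inl i)) := by
  have e : (fun x : ZMod m ⊕ ZMod m → ZMod 2 => dd m w x (i + del m w j) + x (Sum.inl i)) =
      fun x => x (Sum.inr (i + del m w j)) +
        ∑ l ∈ univ.erase j, x (Sum.inl (i + del m w j - del m w l)) := by
    ext x
    rw [dd, ← add_sum_erase univ _ (mem_univ j), add_sub_cancel_right]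
    have h2 : ∀ a : ZMod 2, a + a = 0 := by decide
    have := h2 (x (Sum.inl i))
    linear_combination this
  rw [e]
  refine (Hm.var (mem_insert_self _ _)).add (Hm.sum _ fun l hl => Hm.var ?_)
  exact mem_insert_of_mem (mem_image_of_mem _ hl)

variable {m w}

theorem A0_disj (hm : 2 * 3 ^ w < m) (i : ZMod m) (j : Fin w) :
    Disjoint (A0 m w i) (A1 m w i j) := by
  have hj : (j : ℕ) + 1 ≤ w := j.2
  rw [disjoint_left]
  intro v hv hv'
  simp only [A0, A1, mem_insert, mem_image, mem_univ, true_and, mem_erase] at hv hv'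
  rcases hv with rfl | ⟨l, rfl⟩
  · rcases hv' with h | ⟨l, -, h⟩
    · have h1 : del m w j = 0 := by simpa using (Sum.inr.inj h).symm
      rw [del] at h1
      have h2 : (3 : ZMod m) ^ ((j : ℕ) + 1) + 3 ^ 0 = 3 ^ 0 + 3 ^ 0 := by
        rw [pow_zero]
        linear_combination h1
      rcases sidon hm hj (Nat.zero_le _) (Nat.zero_le _) (Nat.zero_le _) h2 with h | h <;> omega
    · exact absurd h (by simp)
  · rcases hv' with h | ⟨l', hl', h⟩
    · exact absurd h (by simp)
    · have h1 := Sum.inl.inj h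
      have hl : (l : ℕ) + 1 ≤ w := l.2
      have hl'' : (l' : ℕ) + 1 ≤ w := l'.2
      have h2 : (3 : ZMod m) ^ ((j : ℕ) + 1) + 3 ^ ((l : ℕ) + 1) =
          3 ^ ((l' : ℕ) + 1) + 3 ^ 0 := by
        rw [pow_zero]
        simp only [del] at h1
        linear_combination h1
      rcases sidon hm hj hl hl'' (Nat.zero_le _) h2 with h | h <;> omega

theorem A1_disj (hm : 2 * 3 ^ w < m) (i : ZMod m) (j j' : Fin w) (hjj : j ≠ j') :
    Disjoint (A1 m w i j) (A1 m w i j') := by
  have hj : (j : ℕ) + 1 ≤ w := j.2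
  have hj' : (j' : ℕ) + 1 ≤ w := j'.2
  have hne : (j : ℕ) ≠ j' := fun h => hjj (Fin.ext h)
  rw [disjoint_left]
  intro v hv hv'
  simp only [A1, mem_insert, mem_image, mem_univ, and_true, mem_erase] at hv hv'
  rcases hv with rfl | ⟨l, hl, rfl⟩
  · rcases hv' with h | ⟨l, -, h⟩
    · have h1 := Sum.inr.inj h
      have h2 : (3 : ZMod m) ^ ((j : ℕ) + 1) + 3 ^ 0 = 3 ^ ((j' : ℕ) + 1) + 3 ^ 0 := by
        simp only [del] at h1
        linear_combination h1
      rcases sidon hm hj (Nat.zero_le _) hj' (Nat.zero_le _) h2 with h | h <;> omega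
    · exact absurd h (by simp)
  · rcases hv' with h | ⟨l', hl', h⟩
    · exact absurd h (by simp)
    · have h1 := Sum.inl.inj h
      have hl1 : (l : ℕ) + 1 ≤ w := l.2
      have hl2 : (l' : ℕ) + 1 ≤ w := l'.2
      have hn1 : (l : ℕ) ≠ j := fun h => hl (Fin.ext h)
      have hn2 : (l' : ℕ) ≠ j' := fun h => hl' (Fin.ext h)
      have h2 : (3 : ZMod m) ^ ((j : ℕ) + 1) + 3 ^ ((l' : ℕ) + 1) =
          3 ^ ((j' : ℕ) + 1) + 3 ^ ((l : ℕ) + 1) := by
        simp only [del] at h1
        linear_combination (-1 : ZMod m) * h1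
      rcases sidon hm hj hl2 hj' hl1 h2 with h | h <;> omega

end construction

end Pool.Agent.H273R2.Bent
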