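import Pool.Agent.H273R2.Bent.Basic

set_option autoImplicit false

open Finset

namespace Pool.Agent.H273R2.Bent

/-- bent homogeneous functions on `ZMod m ⊕ ZMod m` -/
theorem exists_bent (a : ℕ) : ∃ N : ℕ, ∀ m : ℕ, N < m → ∀ _ : NeZero m,
    ∃ S : Finset (Finset (ZMod m ⊕ ZMod m)), (∀ s ∈ S, s.card = 2 ^ a + 1) ∧
      ∀ c : ZMod m ⊕ ZMod m → ZMod 2,
        (∑ x : ZMod m ⊕ ZMod m → ZMod 2,
          chi ((∑ s ∈ S, ∏ i ∈ s, x i) + ∑ i, c i * x i)) ^ 2 = 2 ^ (2 * m) := by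
  obtain ⟨w, φ, hφ1, hφ2⟩ := gadget a
  refine ⟨2 * 3 ^ w, fun m hm _ => ?_⟩
  -- adding a constant
  have hφc : ∀ (v : Fin w → ZMod 2) (t : ZMod 2), φ (fun j => v j + t) = φ v + t := by
    intro v t
    have h2 : ∀ a : ZMod 2, a = 0 ∨ a = 1 := by decide
    rcases h2 t with rfl | rfl
    · simp
    · exact hφ1 v
  -- the function
  let F : (ZMod m ⊕ ZMod m → ZMod 2) → ZMod 2 := fun x =>
    ∑ i : ZMod m, dd m w x i * φ (fun j => dd m w x (i + del m w j) + x (Sum.inl i))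
  have hF : Hm univ (2 ^ a + 1) F := by
    refine Hm.sum univ fun i _ => ?_
    have h1 := hφ2 (ZMod m ⊕ ZMod m) (fun j x => dd m w x (i + del m w j) + x (Sum.inl i))
      (fun j => A1 m w i j) (fun j => e_hm m w i j) (fun j j' h => A1_disj hm i j j' h)
    have h3 := (dd_hm m w i).mul h1
      ((disjoint_biUnion_right _ _ _).2 fun j _ => A0_disj hm i j)
    rw [add_comm 1] at h3
    exact h3.mono (subset_univ _)
  obtain ⟨S, hS, hFS⟩ := hF.exists_finset
  refine ⟨S, hS, fun c => ?_⟩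
  -- the Maiorana-McFarland form
  let h : (ZMod m → ZMod 2) → ZMod 2 := fun d => ∑ i, d i * φ (fun j => d (i + del m w j))
  let L : (ZMod m → ZMod 2) →ₗ[ZMod 2] (ZMod m → ZMod 2) :=
    LinearMap.pi fun i => ∑ j : Fin w, LinearMap.proj (i - del m w j)
  have hdd : ∀ x : ZMod m ⊕ ZMod m → ZMod 2, ∀ i,
      dd m w x i = ((fun i => x (Sum.inr i)) + L (fun i => x (Sum.inl i))) i := by
    intro x i
    simp [dd, L]
  have hFh : ∀ x, F x = h ((fun i => x (Sum.inr i)) + L (fun i => x (Sum.inl i))) +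
      ∑ i, x (Sum.inl i) * ((fun i => x (Sum.inr i)) + L (fun i => x (Sum.inl i))) i := by
    intro x
    simp only [F, h, ← hdd, hφc]
    rw [← sum_add_distrib]
    exact sum_congr rfl fun i _ => by ring
  have hmm := mm h L (fun i => c (Sum.inl i)) (fun i => c (Sum.inr i))
  rw [ZMod.card] at hmm
  rw [← hmm]
  congr 1
  refine Fintype.sum_equiv (Equiv.sumArrowEquivProdArrow _ _ _) _ _ fun x => ?_
  rw [← hFS, hFh, Fintype.sum_sum_type]
  rfl

end Pool.Agent.H273R2.Bent
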